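import Pool.Agent.H961R2.Lev.Stubs

open MeasureTheory Set Filter Topology InnerProductSpace Complex

namespace H961Lev

theorem C7_A2_mono {v w : ℤ → ℝ} (h : ∀ i, v i ≤ w i) (i : ℤ) : A2 v i ≤ A2 w i := by
  unfold A2
  have h1 := h (i - 1)
  have h2 := h i
  have h3 := h (i + 1)
  linarith

theorem C7_A2_sum (s : Finset ℕ) (f : ℕ → ℤ → ℝ) (i : ℤ) :
    A2 (fun i => ∑ r ∈ s, f r i) i = ∑ r ∈ s, A2 (f r) i := by
  unfold A2
  rw [← Finset.sum_div, Finset.sum_add_distrib, Finset.sum_add_distrib, Finset.mul_sum]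

theorem C7_C9_sum (N : ℕ) (m : ℝ) (s : Finset ℕ) (c : ℕ → ℝ) (f : ℕ → ℤ → ℝ)
    (h : ∀ r ∈ s, C9 N m (c r) (f r)) :
    C9 N m (∑ r ∈ s, c r) (fun i => ∑ r ∈ s, f r i) := by
  refine ⟨fun i => ⟨Finset.sum_nonneg fun r hr => ((h r hr).1 i).1,
    Finset.sum_le_sum fun r hr => ((h r hr).1 i).2⟩, fun i => ?_⟩
  rw [Finset.sum_comm, Finset.mul_sum]
  exact Finset.sum_le_sum fun r hr => (h r hr).2 i

theorem T_C7 : S_C6 → S_C7 := by
  intro h6 N R v w hN hRel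
  obtain ⟨c, ψ, h1, h2, h3⟩ := hRel
  have hex : ∀ r : ℕ, ∃ (c' : ℕ → ℝ) (ψ' : ℕ → ℤ → ℝ), r ∈ Finset.range (R + 1) →
      (∀ r' ≤ R, C9 N (2 * r' + 1) (c' r') (ψ' r')) ∧
      (∀ i, A2 (ψ r) i = ∑ r' ∈ Finset.range (R + 1), ψ' r' i) ∧
      (∀ i, A2 (fun i => c r * ind N r i) i = ∑ r' ∈ Finset.range (R + 1), c' r' * ind N r' i) := by
    intro r
    by_cases hr : r ≤ R
    · obtain ⟨c', ψ', h⟩ := h6 N R r (c r) (ψ r) hN hr (h1 r hr)
      exact ⟨c', ψ', fun _ => h⟩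
    · refine ⟨fun _ => 0, fun _ _ => 0, fun hr' => ?_⟩
      exact absurd (Nat.lt_succ_iff.1 (Finset.mem_range.1 hr')) hr
  choose c' ψ' h using hex
  refine ⟨fun r' => ∑ r ∈ Finset.range (R + 1), c' r r',
    fun r' i => ∑ r ∈ Finset.range (R + 1), ψ' r r' i, ?_, ?_, ?_⟩
  · intro r' hr'
    exact C7_C9_sum N _ _ (fun r => c' r r') (fun r => ψ' r r') fun r hr => (h r hr).1 r' hr'
  · intro i
    have h4 := C7_A2_mono h2 i
    rw [C7_A2_sum] at h4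
    refine h4.trans (le_of_eq ?_)
    rw [Finset.sum_comm]
    exact Finset.sum_congr rfl fun r hr => (h r hr).2.1 i
  · intro i
    have h4 := C7_A2_mono h3 i
    rw [C7_A2_sum (Finset.range (R + 1)) (fun r i => c r * ind N r i)] at h4
    refine le_trans (le_of_eq ?_) h4
    have h5 : ∀ r' : ℕ, (∑ r ∈ Finset.range (R + 1), c' r r') * ind N r' i =
        ∑ r ∈ Finset.range (R + 1), c' r r' * ind N r' i := fun r' => Finset.sum_mul _ _ _
    simp only [h5]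
    rw [Finset.sum_comm]
    exact Finset.sum_congr rfl fun r hr => ((h r hr).2.2 i).symm

end H961Lev
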